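import Mathlib.Data.Real.Basic
import Mathlib.Order.Monotone.Basic
import Mathlib.Tactic.Linarith
import Mathlib.Tactic.Ring

/-!
# ACC for minimal log discrepancies: values close to the dimension are enough
-/

namespace Pool.Agent.Results.MP_df5e61_ag.NearMaximalValues

/-- The set contains no strictly increasing infinite sequence. -/
def IsACC (S : Set ℝ) : Prop := ¬ ∃ f : ℕ → ℝ, StrictMono f ∧ ∀ i, f i ∈ S

/-- The minimal log discrepancies different from `-∞` of the pairs of dimension `k` with coefficients in
a fixed set. -/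
structure Mlds where
  /-- the values in dimension `k` -/
  values : ℕ → Set ℝ
  nonneg : ∀ k, ∀ a ∈ values k, 0 ≤ a
  /-- the product with an affine line -/
  add_one : ∀ k, ∀ a ∈ values k, a + 1 ∈ values (k + 1)

lemma add_nat (T : Mlds) (k m : ℕ) : ∀ a ∈ T.values k, a + m ∈ T.values (k + m) := by
  induction m with
  | zero => intro a ha; simpa using ha
  | succ m ih =>
    intro a ha
    have h := T.add_one _ _ (ih a ha)
    have e : a + ((m + 1 : ℕ) : ℝ) = a + m + 1 := by push_cast; ring
    rw [e]
    exact h

/-- Let `g` be an unbounded function. The sets of minimal log discrepancies satisfy the ascending chain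
condition in all dimensions if and only if their parts with values at least `n - g(n)`, `n` the
dimension, do. -/
theorem result (T : Mlds) (g : ℕ → ℝ) (hg : ∀ k : ℕ, ∃ n : ℕ, k ≤ n ∧ (k : ℝ) ≤ g n) :
    (∀ k, IsACC (T.values k)) ↔ ∀ n, IsACC {a ∈ T.values n | (n : ℝ) - g n ≤ a} := by
  constructor
  · rintro h n ⟨f, hf, hmem⟩
    exact h n ⟨f, hf, fun i => (hmem i).1⟩
  · rintro h k ⟨f, hf, hmem⟩
    obtain ⟨n, hkn, hn⟩ := hg k
    obtain ⟨m, rfl⟩ := Nat.exists_eq_add_of_le hkn
    refine h (k + m) ⟨fun i => f i + m, fun i j hij => ?_, fun i => ⟨add_nat T k m _ (hmem i), ?_⟩⟩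
    · have := hf hij
      show f i + m < f j + m
      linarith
    · have h1 := T.nonneg k _ (hmem i)
      push_cast
      linarith

end Pool.Agent.Results.MP_df5e61_ag.NearMaximalValues
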