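import Mathlib
import Pool.Agent.TH165.ACC.NFin

/-!
# ACC for minimal log discrepancies on toric germs of arbitrary dimension with non-toric boundaries

`ToricGerm n K`: an affine toric variety of dimension `n` with function field `K` and with a fixed
point `P`, given by any strictly convex rational cone of dimension `n`. The boundary `B` is an
arbitrary effective `ℝ`-divisor on it with `K_X + B` `ℝ`-Cartier at `P`. The minimal log discrepancy
is taken over all prime divisors over the germ.
-/

set_option autoImplicit false

namespace Pool.Agent.Results.MP_df5e61_ag.ToricGerms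

open Pool.Agent.TH165.ACC Pool.Agent.W497.Mld Pool.Agent.H436R3.KT

/-- For every `n` and every DCC set `Γ`, the minimal log discrepancies `mld (X ∋ P, B) ≥ 0` satisfy
ACC, where `X ∋ P` runs over all toric germs of dimension `n` and `B` over all boundaries with
coefficients in `Γ` which are nondegenerate at `P`, or such that the minimal log discrepancy is the
log discrepancy of a monomial valuation. -/
theorem result (n : ℕ) (Γ : Set ℝ) (hΓ : Pool.Agent.TH165.ACC.IsDCC Γ) :
    IsACC {m : ℝ | 0 ≤ m ∧ ∃ (g : ToricGerm n (FractionRing (MvPolynomial (Fin n) ℂ)))
      (B : EffDiv g.X) (e : LocEq B g.P),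
      CoeffIn B Γ ∧ Pool.Agent.W497.Mld.IsMld e m ∧ (Computed e m ∨ NondegBoundary g B)} :=
  geo_acc' hΓ

end Pool.Agent.Results.MP_df5e61_ag.ToricGerms
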